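import Pool.Agent.Helper53.Comp.GoalsK
import Pool.Agent.Helper33.Mono.BoxCount

/-! Packet K2 (MP_aa7fc1, helper53): the shifted box count. -/

namespace Mono.Comp

namespace K2

open Finset Mono.H33

variable {n : ℕ}

/-- The half-open box, shifted by `w`. -/
def BoxR (Z τ : Finset (Fin n → ℤ)) (w : Fin n → ℝ) (a : ℝ) : Set (Fin n → ℤ) :=
  {b | ∃ c : (Fin n → ℤ) → ℝ, (∀ u ∈ τ, 0 ≤ c u ∧ c u < 1) ∧
    w + toR b = ∑ u ∈ τ, c u • toR u ∧ ∃ z : ℤ, ∑ u ∈ τ \ Z, c u - a = z}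

/-- The open box, shifted by `w`. -/
def OBoxR (Z : Finset (Fin n → ℤ)) (w : Fin n → ℝ) (a : ℝ) (G : Finset (Fin n → ℤ)) :
    Set (Fin n → ℤ) :=
  {b | ∃ c : (Fin n → ℤ) → ℝ, (∀ u ∈ G, 0 < c u ∧ c u < 1) ∧
    w + toR b = ∑ u ∈ G, c u • toR u ∧ ∃ z : ℤ, ∑ u ∈ G \ Z, c u - a = z}

theorem lstarR_eq (Z : Finset (Fin n → ℤ)) (w : Fin n → ℝ) (a : ℝ) (G : Finset (Fin n → ℤ)) :
    lstarR Z w a G = Nat.card (OBoxR Z w a G) := rfl

/-- Extension by zero. -/
theorem oboxR_ext {Z τ G : Finset (Fin n → ℤ)} (hG : G ⊆ τ) {w : Fin n → ℝ} {a : ℝ}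
    {b : Fin n → ℤ} (hb : b ∈ OBoxR Z w a G) :
    ∃ c : (Fin n → ℤ) → ℝ, (∀ u ∈ τ, 0 ≤ c u ∧ c u < 1) ∧
    (∀ u ∈ τ, c u ≠ 0 ↔ u ∈ G) ∧
    w + toR b = ∑ u ∈ τ, c u • toR u ∧ ∃ z : ℤ, ∑ u ∈ τ \ Z, c u - a = z := by
  classical
  obtain ⟨c, hc, hbc, z, hz⟩ := hb
  refine ⟨fun u => if u ∈ G then c u else 0, ?_, ?_, ?_, z, ?_⟩
  · intro u _
    by_cases hu : u ∈ G
    · simp only [hu, if_true]
      exact ⟨(hc u hu).1.le, (hc u hu).2⟩
    · simp [hu]
  · intro u _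
    by_cases hu : u ∈ G
    · simp [hu, (hc u hu).1.ne']
    · simp [hu]
  · rw [hbc]
    rw [← Finset.sum_subset hG (f := fun u => (if u ∈ G then c u else 0) • toR u)
      (fun u _ hu => by simp [hu])]
    exact Finset.sum_congr rfl fun u hu => by simp [hu]
  · rw [← hz]
    congr 1
    rw [← Finset.sum_subset (Finset.sdiff_subset_sdiff hG (Finset.Subset.refl Z))
      (f := fun u => (if u ∈ G then c u else 0)) (fun u hu hu' => by
        have : u ∉ G := fun h => hu' (Finset.mem_sdiff.2 ⟨h, (Finset.mem_sdiff.1 hu).2⟩)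
        simp [this])]
    exact Finset.sum_congr rfl fun u hu => by simp [(Finset.mem_sdiff.1 hu).1]

theorem sum_lstarR {Z τ : Finset (Fin n → ℤ)} (hτ : Indep τ) (w : Fin n → ℝ) (a : ℝ)
    (hfin : (BoxR Z τ w a).Finite) :
    ∑ G ∈ τ.powerset, lstarR Z w a G = Nat.card (BoxR Z τ w a) := by
  classical
  have : Finite (BoxR Z τ w a) := hfin
  have hsub : ∀ G : τ.powerset, OBoxR Z w a (G : Finset (Fin n → ℤ)) ⊆ BoxR Z τ w a := by
    intro G b hb
    obtain ⟨c, hc, _, h2, h3⟩ := oboxR_ext (Finset.mem_powerset.1 G.2) hb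
    exact ⟨c, hc, h2, h3⟩
  have : ∀ G : τ.powerset, Finite (OBoxR Z w a (G : Finset (Fin n → ℤ))) := fun G =>
    (hfin.subset (hsub G))
  rw [← Finset.sum_coe_sort τ.powerset]
  simp only [lstarR_eq]
  rw [← Nat.card_sigma]
  refine Nat.card_congr (Equiv.ofBijective
    (fun p : (Σ G : τ.powerset, OBoxR Z w a (G : Finset (Fin n → ℤ))) =>
      (⟨p.2.1, hsub p.1 p.2.2⟩ : BoxR Z τ w a)) ⟨?_, ?_⟩)
  · rintro ⟨⟨G, hG⟩, ⟨b, hb⟩⟩ ⟨⟨G', hG'⟩, ⟨b', hb'⟩⟩ h
    have hbb : b = b' := by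
      have := congrArg Subtype.val h
      exact this
    subst hbb
    obtain ⟨c, _, hc, h2, _⟩ := oboxR_ext (Finset.mem_powerset.1 hG) hb
    obtain ⟨c', _, hc', h2', _⟩ := oboxR_ext (Finset.mem_powerset.1 hG') hb'
    have h3 := hτ.coeff_eq (h2.symm.trans h2')
    have hGG : G = G' := by
      ext u
      constructor
      · intro hu
        have hu' := Finset.mem_powerset.1 hG hu
        rw [← hc' u hu', ← h3 u hu', hc u hu']
        exact hu
      · intro hu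
        have hu' := Finset.mem_powerset.1 hG' hu
        rw [← hc u hu', h3 u hu', hc' u hu']
        exact hu
    subst hGG
    rfl
  · rintro ⟨b, c, hc, h2, z, hz⟩
    refine ⟨⟨⟨τ.filter (fun u => c u ≠ 0), Finset.mem_powerset.2 (Finset.filter_subset _ _)⟩,
      ⟨b, c, ?_, ?_, z, ?_⟩⟩, rfl⟩
    · intro u hu
      rw [Finset.mem_filter] at hu
      exact ⟨lt_of_le_of_ne (hc u hu.1).1 hu.2.symm, (hc u hu.1).2⟩
    · rw [h2, Finset.sum_filter]
      refine Finset.sum_congr rfl fun u _ => ?_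
      by_cases hu : c u = 0
      · simp [hu]
      · simp [hu]
    · rw [← hz]
      congr 1
      refine Finset.sum_subset (Finset.sdiff_subset_sdiff (Finset.filter_subset _ _)
        (Finset.Subset.refl Z)) (fun u hu hu' => ?_)
      by_contra hcon
      exact hu' (Finset.mem_sdiff.2 ⟨Finset.mem_filter.2 ⟨(Finset.mem_sdiff.1 hu).1, hcon⟩,
        (Finset.mem_sdiff.1 hu).2⟩)

section

variable {Z τ : Finset (Fin n → ℤ)} {l : (Fin n → ℝ) →ₗ[ℝ] ℝ}
  (hl : ∀ u ∈ τ, l (toR u) = if u ∈ Z then 0 else 1)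

include hl

theorem psi_combR {x : Fin n → ℝ} {c : (Fin n → ℤ) → ℝ} (h : x = ∑ u ∈ τ, c u • toR u) :
    l x = ∑ u ∈ τ \ Z, c u := by
  classical
  rw [h, map_sum]
  have h2 : ∑ u ∈ τ, l (c u • toR u) = ∑ u ∈ τ, if u ∈ Z then 0 else c u := by
    refine Finset.sum_congr rfl fun u hu => ?_
    rw [map_smul, hl u hu, smul_eq_mul]
    split_ifs <;> simp
  rw [h2, Finset.sum_ite]
  simp only [Finset.sum_const_zero, zero_add]
  refine Finset.sum_congr ?_ fun _ _ => rfl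
  ext u
  simp

theorem mem_boxR_iff (w : Fin n → ℝ) (a : ℝ) (b b1 : Fin n → ℤ) : b ∈ BoxR Z τ w a ↔
    ∃ c : (Fin n → ℤ) → ℝ, (∀ u ∈ τ, 0 ≤ c u ∧ c u < 1) ∧
    w + toR b = ∑ u ∈ τ, c u • toR u ∧
      ∃ z : ℤ, l (w + toR b1) + psiHom l (b - b1) - a = z := by
  have key : l (w + toR b) = l (w + toR b1) + psiHom l (b - b1) := by
    rw [psiHom_apply, ← map_add, toR_sub]
    congr 1
    abel
  constructor
  · rintro ⟨c, hc, h2, z, hz⟩
    exact ⟨c, hc, h2, z, by rw [← key, psi_combR hl h2]; exact hz⟩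
  · rintro ⟨c, hc, h2, z, hz⟩
    exact ⟨c, hc, h2, z, by rw [← psi_combR hl h2, key]; exact hz⟩

omit hl in
theorem sat_of_boxR {w : Fin n → ℝ} {b b1 : Fin n → ℤ} {c c1 : (Fin n → ℤ) → ℝ}
    (h1 : w + toR b1 = ∑ u ∈ τ, c1 u • toR u) (h2 : w + toR b = ∑ u ∈ τ, c u • toR u) :
    b - b1 ∈ sat (τ : Set (Fin n → ℤ)) := by
  refine mem_sat_of_comb τ (b - b1) (fun u => c u - c1 u) ?_
  rw [toR_sub]
  simp only [sub_smul]
  rw [Finset.sum_sub_distrib, ← h1, ← h2]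
  abel

theorem card_boxR (hτ : Indep τ) {u₀ : Fin n → ℤ} (hu₀ : u₀ ∈ τ \ Z) (w : Fin n → ℝ) (a : ℝ)
    {b1 : Fin n → ℤ} {c1 : (Fin n → ℤ) → ℝ} (h1 : w + toR b1 = ∑ u ∈ τ, c1 u • toR u)
    {x₀ : Fin n → ℤ} (hx₀ : x₀ ∈ sat (τ : Set (Fin n → ℤ))) {z₀ : ℤ}
    (hz₀ : l (w + toR b1) + psiHom l x₀ - a = z₀) :
    Nat.card (BoxR Z τ w a) = volZ Z τ := by
  classical
  rw [← relIndex_KK (psiHom_one hl) (psiHom_zero hl) hu₀]
  set N := AddSubgroup.closure (τ : Set (Fin n → ℤ)) with hN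
  set K := KK τ (psiHom l) with hK
  change _ = (N.addSubgroupOf K).index
  rw [AddSubgroup.index]
  have hK' : ∀ b ∈ BoxR Z τ w a, b - b1 - x₀ ∈ K := by
    intro b hb
    obtain ⟨c, hc, h2, z, hz⟩ := (mem_boxR_iff hl w a b b1).1 hb
    rw [hK, mem_KK]
    refine ⟨AddSubgroup.sub_mem _ (sat_of_boxR h1 h2) hx₀, z - z₀, ?_⟩
    rw [map_sub]
    push_cast
    linarith
  refine Nat.card_congr (Equiv.ofBijective
    (fun b : BoxR Z τ w a => (QuotientAddGroup.mk (⟨b.1 - b1 - x₀, hK' b.1 b.2⟩ : K) :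
      K ⧸ N.addSubgroupOf K)) ⟨?_, ?_⟩)
  · rintro ⟨b, hb⟩ ⟨b', hb'⟩ h
    have h' := QuotientAddGroup.eq.1 h
    rw [AddSubgroup.mem_addSubgroupOf] at h'
    have h3 : -(b - b1 - x₀) + (b' - b1 - x₀) ∈ N := h'
    have h4 : b' - b ∈ N := by
      have : -(b - b1 - x₀) + (b' - b1 - x₀) = b' - b := by abel
      rwa [this] at h3
    obtain ⟨z, hz⟩ := closure_comb τ h4
    obtain ⟨c, hc, h2, _⟩ := hb
    obtain ⟨c', hc', h2', _⟩ := hb'
    have h5 : ∑ u ∈ τ, c' u • toR u = ∑ u ∈ τ, (c u + z u) • toR u := by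
      simp only [add_smul]
      rw [Finset.sum_add_distrib, ← h2, ← h2']
      have : ∑ u ∈ τ, (z u : ℝ) • toR u = toR (b' - b) := by
        rw [hz, toR_sum]
        exact Finset.sum_congr rfl fun u _ => (toR_smul _ _).symm
      rw [this, toR_sub]
      abel
    have h6 := hτ.coeff_eq h5
    have h7 : ∀ u ∈ τ, z u = 0 := by
      intro u hu
      have e := h6 u hu
      have e1 := hc u hu
      have e2 := hc' u hu
      have e3 : (z u : ℝ) < 1 := by linarith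
      have e4 : (-1 : ℝ) < (z u : ℝ) := by linarith
      have e5 : z u < 1 := by exact_mod_cast e3
      have e6 : -1 < z u := by exact_mod_cast e4
      omega
    have h8 : b' - b = 0 := by
      rw [hz]
      exact Finset.sum_eq_zero fun u hu => by rw [h7 u hu, zero_smul]
    have h9 : b = b' := (sub_eq_zero.1 h8).symm
    exact Subtype.ext h9
  · intro y
    obtain ⟨⟨k, hk⟩, rfl⟩ := QuotientAddGroup.mk_surjective y
    have hk' := mem_KK.1 hk
    obtain ⟨hks, z, hz⟩ := hk'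
    obtain ⟨c, hc⟩ := sat_comb τ (AddSubgroup.add_mem _ hks hx₀)
    set m : Fin n → ℤ := ∑ u ∈ τ, ⌊c u + c1 u⌋ • u with hm
    have hmN : m ∈ N := AddSubgroup.sum_mem _ fun u hu =>
      AddSubgroup.zsmul_mem _ (AddSubgroup.subset_closure (by exact_mod_cast hu)) _
    have hcomb : w + toR (k + x₀ + b1 - m) = ∑ u ∈ τ, (Int.fract (c u + c1 u)) • toR u := by
      have e1 : w + toR (k + x₀ + b1 - m) = toR (k + x₀) + (w + toR b1) - toR m := by
        rw [toR_sub, toR_add]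
        abel
      rw [e1, hc, h1, hm, toR_sum, ← Finset.sum_add_distrib, ← Finset.sum_sub_distrib]
      refine Finset.sum_congr rfl fun u _ => ?_
      rw [toR_smul, ← add_smul, ← sub_smul]
      rfl
    have hbox : k + x₀ + b1 - m ∈ BoxR Z τ w a := by
      rw [mem_boxR_iff hl w a _ b1]
      obtain ⟨v, hv, _⟩ := closure_dec (psiHom_one hl) (psiHom_zero hl) hu₀ hmN
      refine ⟨fun u => Int.fract (c u + c1 u),
        fun u _ => ⟨Int.fract_nonneg _, Int.fract_lt_one _⟩, hcomb, z + z₀ - v, ?_⟩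
      have e2 : k + x₀ + b1 - m - b1 = k + x₀ - m := by abel
      have e3 : psiHom l (k + x₀ - m) = z + psiHom l x₀ - v := by
        rw [map_sub (psiHom l), map_add (psiHom l), hz, hv]
      rw [e2, e3]
      push_cast
      linarith
    refine ⟨⟨k + x₀ + b1 - m, hbox⟩, ?_⟩
    apply QuotientAddGroup.eq.2
    rw [AddSubgroup.mem_addSubgroupOf]
    change -(k + x₀ + b1 - m - b1 - x₀) + k ∈ N
    have : -(k + x₀ + b1 - m - b1 - x₀) + k = m := by abel
    rw [this]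
    exact hmN

end

/-- Independent vectors of a coordinate subspace, as many as its dimension, span it. -/
theorem span_cs {τ : Finset (Fin n → ℤ)} (hτ : Indep τ) (hcard : τ.card = (cs τ).card)
    (x : Fin n → ℝ) (hx : ∀ i, i ∉ cs τ → x i = 0) :
    ∃ c : (Fin n → ℤ) → ℝ, x = ∑ u ∈ τ, c u • toR u := by
  classical
  set W : Submodule ℝ (Fin n → ℝ) := Submodule.span ℝ (Set.range fun u : τ => toR u.1) with hW
  -- the coordinate subspace
  let E : Submodule ℝ (Fin n → ℝ) :=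
    { carrier := {y | ∀ i, i ∉ cs τ → y i = 0}
      zero_mem' := fun i _ => rfl
      add_mem' := by
        intro y z hy hz i hi
        rw [Pi.add_apply, hy i hi, hz i hi, add_zero]
      smul_mem' := by
        intro r y hy i hi
        rw [Pi.smul_apply, hy i hi, smul_zero] }
  have hWE : W ≤ E := by
    rw [hW, Submodule.span_le]
    rintro y ⟨u, rfl⟩
    intro i hi
    have : (u.1) i = 0 := by
      by_contra hne
      exact hi (by
        unfold cs
        rw [Finset.mem_filter]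
        exact ⟨Finset.mem_univ _, u.1, u.2, hne⟩)
    change ((u.1 i : ℤ) : ℝ) = 0
    rw [this]
    simp
  have hWdim : Module.finrank ℝ W = τ.card := by
    rw [hW, finrank_span_eq_card (hτ : LinearIndependent ℝ fun u : τ => toR u.1)]
    simp
  let φ : E →ₗ[ℝ] (cs τ → ℝ) :=
    { toFun := fun y i => y.1 i.1
      map_add' := fun y z => rfl
      map_smul' := fun r y => rfl }
  have hφ : Function.Injective φ := by
    intro y z hyz
    apply Subtype.ext
    funext i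
    by_cases hi : i ∈ cs τ
    · exact congrFun hyz ⟨i, hi⟩
    · rw [y.2 i hi, z.2 i hi]
  have hEdim : Module.finrank ℝ E ≤ (cs τ).card := by
    have := LinearMap.finrank_le_finrank_of_injective hφ
    simpa using this
  have hEq : W = E := Submodule.eq_of_le_of_finrank_le hWE (by rw [hWdim, hcard]; exact hEdim)
  have hxW : x ∈ W := by
    rw [hEq]
    exact hx
  rw [hW, Submodule.mem_span_range_iff_exists_fun] at hxW
  obtain ⟨c, hc⟩ := hxW
  refine ⟨fun u => if h : u ∈ τ then c ⟨u, h⟩ else 0, ?_⟩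
  rw [← hc, ← Finset.sum_coe_sort τ]
  refine Finset.sum_congr rfl fun u _ => ?_
  simp

/-- A real linear form is the dot product with its values. -/
theorem dot_comb {τ : Finset (Fin n → ℤ)} (κ : Fin n → ℤ) (c : (Fin n → ℤ) → ℝ) (x : Fin n → ℝ)
    (h : x = ∑ u ∈ τ, c u • toR u) :
    ∑ i, (κ i : ℝ) * x i = ∑ u ∈ τ, c u * ((κ ⬝ᵥ u : ℤ) : ℝ) := by
  rw [h]
  simp only [Finset.sum_apply, Pi.smul_apply, smul_eq_mul, toR_apply, Finset.mul_sum]
  rw [Finset.sum_comm]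
  refine Finset.sum_congr rfl fun u _ => ?_
  rw [dotProduct]
  push_cast
  rw [Finset.mul_sum]
  refine Finset.sum_congr rfl fun i _ => ?_
  ring

end K2

open K2 Finset Mono.H33 in
/-- K2f. -/
theorem boxFinite : BoxFinite := by
  classical
  intro n Z G w a
  set M : Fin n → ℝ := fun i => |w i| + ∑ u ∈ G, |(u i : ℝ)| with hM
  have hfin : (Set.Icc (fun i => -⌈M i⌉) (fun i => ⌈M i⌉) : Set (Fin n → ℤ)).Finite :=
    Set.finite_Icc _ _
  refine Set.Finite.subset hfin ?_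
  rintro b ⟨c, hc, hb, -⟩
  have key : ∀ i, |(b i : ℝ)| ≤ M i := by
    intro i
    have h1 := congrFun hb i
    simp only [Pi.add_apply, Finset.sum_apply, Pi.smul_apply, smul_eq_mul, toR_apply] at h1
    have h2 : (b i : ℝ) = ∑ u ∈ G, c u * (u i : ℝ) - w i := by linarith
    rw [h2, hM]
    have h3 : |∑ u ∈ G, c u * (u i : ℝ)| ≤ ∑ u ∈ G, |(u i : ℝ)| := by
      refine (Finset.abs_sum_le_sum_abs _ _).trans (Finset.sum_le_sum fun u hu => ?_)
      rw [abs_mul, abs_of_pos (hc u hu).1]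
      have := (hc u hu).2
      have h0 := abs_nonneg (u i : ℝ)
      nlinarith
    have h4 := abs_sub (∑ u ∈ G, c u * (u i : ℝ)) (w i)
    simp only
    linarith
  rw [Set.mem_Icc]
  constructor
  · intro i
    have h1 := (abs_le.1 (key i)).1
    have h2 : -(⌈M i⌉ : ℝ) ≤ (b i : ℝ) := by
      have := Int.le_ceil (M i)
      linarith
    exact_mod_cast h2
  · intro i
    have h1 := (abs_le.1 (key i)).2
    have h2 : (b i : ℝ) ≤ (⌈M i⌉ : ℝ) := by
      have := Int.le_ceil (M i)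
      linarith
    exact_mod_cast h2

open K2 Finset Mono.H33 in
/-- K2. -/
theorem boxCountR (h : IdxPos) : BoxCountR := by
  classical
  intro n Z τ V w hZ hτ hcard hV hw a
  obtain ⟨u₀, hu, hu'⟩ := Finset.not_subset.1 hZ
  have hu₀ : u₀ ∈ τ \ Z := Finset.mem_sdiff.2 ⟨hu, hu'⟩
  obtain ⟨l, hl⟩ := exists_functional hτ (fun u => if u ∈ Z then 0 else 1)
  have hp := h n (τ : Set (Fin n → ℤ))
  obtain ⟨hN0, hN, x₁, hx₁, hx₁'⟩ := latDist_spec (psiHom_one hl) (psiHom_zero hl) hp hu₀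
  have hN0' : (latDistZ Z τ : ℝ) ≠ 0 := by exact_mod_cast hN0.ne'
  -- the shift
  set b1 : Fin n → ℤ := fun i => if i ∈ cs τ then 0 else -1 with hb1
  have hw1 : ∀ i, i ∉ cs τ → (w + toR b1) i = 0 := by
    intro i hi
    have h1 : w i = 1 := hw i fun hiV => hi (hV hiV)
    rw [Pi.add_apply, h1, toR_apply, hb1]
    simp [hi]
  obtain ⟨c1, hc1⟩ := span_cs hτ hcard (w + toR b1) hw1
  -- elements of `τ` vanish outside `cs τ`
  have hτ0 : ∀ u ∈ τ, ∀ i, i ∉ cs τ → u i = 0 := by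
    intro u hu i hi
    by_contra hne
    exact hi (by
      unfold cs
      rw [Finset.mem_filter]
      exact ⟨Finset.mem_univ _, u, hu, hne⟩)
  -- a form `κ`
  have hκN : ∀ κ : Fin n → ℤ, (∀ i, i ∉ cs τ → κ i = 0) → (∀ u ∈ τ \ Z, κ ⬝ᵥ u = (latDistZ Z τ : ℤ)) →
      (∀ u ∈ τ ∩ Z, κ ⬝ᵥ u = 0) →
      ∃ z : ℤ, (latDistZ Z τ : ℝ) * l (w + toR b1) = ∑ i ∈ V, (κ i : ℝ) * w i + z := by
    intro κ hκ0 hκ1 hκ2
    refine ⟨∑ i ∈ cs τ \ V, κ i, ?_⟩
    have e1 : ∑ i, (κ i : ℝ) * (w + toR b1) i = (latDistZ Z τ : ℝ) * l (w + toR b1) := by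
      rw [dot_comb κ c1 _ hc1, psi_combR hl hc1]
      have e2 : ∑ u ∈ τ, c1 u * ((κ ⬝ᵥ u : ℤ) : ℝ) =
          ∑ u ∈ τ, if u ∈ Z then 0 else c1 u * (latDistZ Z τ : ℝ) := by
        refine Finset.sum_congr rfl fun u hu => ?_
        split_ifs with hz
        · rw [hκ2 u (Finset.mem_inter.2 ⟨hu, hz⟩)]
          simp
        · rw [hκ1 u (Finset.mem_sdiff.2 ⟨hu, hz⟩)]
          simp
      rw [e2, Finset.sum_ite, Finset.sum_const_zero, zero_add, Finset.mul_sum]
      have e3 : τ.filter (fun u => u ∉ Z) = τ \ Z := by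
        ext u
        simp
      rw [e3]
      exact Finset.sum_congr rfl fun u _ => mul_comm _ _
    rw [← e1]
    have e4 : ∑ i, (κ i : ℝ) * (w + toR b1) i = ∑ i ∈ cs τ, (κ i : ℝ) * w i := by
      rw [← Finset.sum_subset (Finset.subset_univ (cs τ)) (fun i _ hi => by
        rw [hκ0 i hi]; simp)]
      refine Finset.sum_congr rfl fun i hi => ?_
      rw [Pi.add_apply, toR_apply, hb1]
      simp [hi]
    rw [e4, ← Finset.sum_sdiff hV, add_comm]
    congr 1
    push_cast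
    refine Finset.sum_congr rfl fun i hi => ?_
    rw [hw i (Finset.mem_sdiff.1 hi).2, mul_one]
  have hcond : CondR Z V w a τ ↔ ∃ z : ℤ, (latDistZ Z τ : ℝ) * (a - l (w + toR b1)) = z := by
    constructor
    · rintro ⟨κ, hκ0, hκ1, hκ2, z, hz⟩
      obtain ⟨z', hz'⟩ := hκN κ hκ0 hκ1 hκ2
      refine ⟨-z - z', ?_⟩
      push_cast
      linarith
    · rintro ⟨z, hz⟩
      obtain ⟨k, hk1, hk2⟩ := (mem_A_iff (psiHom_one hl) (psiHom_zero hl) (latDistZ Z τ)).2 hN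
      set κ : Fin n → ℤ := fun i => if i ∈ cs τ then k i else 0 with hκ
      have hdot : ∀ u ∈ τ, κ ⬝ᵥ u = k ⬝ᵥ u := by
        intro u hu
        rw [dotProduct, dotProduct]
        refine Finset.sum_congr rfl fun i _ => ?_
        by_cases hi : i ∈ cs τ
        · simp [hκ, hi]
        · rw [hτ0 u hu i hi]
          simp
      have hκ0 : ∀ i, i ∉ cs τ → κ i = 0 := fun i hi => by simp [hκ, hi]
      have hκ1 : ∀ u ∈ τ \ Z, κ ⬝ᵥ u = (latDistZ Z τ : ℤ) := fun u hu => by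
        rw [hdot u (Finset.mem_sdiff.1 hu).1, hk1 u hu]
      have hκ2 : ∀ u ∈ τ ∩ Z, κ ⬝ᵥ u = 0 := fun u hu => by
        rw [hdot u (Finset.mem_inter.1 hu).1, hk2 u hu]
      obtain ⟨z', hz'⟩ := hκN κ hκ0 hκ1 hκ2
      refine ⟨κ, hκ0, hκ1, hκ2, -z - z', ?_⟩
      push_cast
      linarith
  have hiff : (∃ x₀ ∈ sat (τ : Set (Fin n → ℤ)), ∃ z₀ : ℤ,
      l (w + toR b1) + psiHom l x₀ - a = z₀) ↔ CondR Z V w a τ := by
    rw [hcond]
    constructor
    · rintro ⟨x₀, hx₀, z₀, hz₀⟩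
      obtain ⟨m, hm⟩ := hN x₀ hx₀
      refine ⟨m - latDistZ Z τ * z₀, ?_⟩
      have : a - l (w + toR b1) = psiHom l x₀ - z₀ := by linarith
      rw [this, mul_sub, hm]
      push_cast
      ring
    · rintro ⟨z, hz⟩
      refine ⟨z • x₁, AddSubgroup.zsmul_mem _ hx₁ _, 0, ?_⟩
      rw [map_zsmul, zsmul_eq_mul]
      have e1 : psiHom l x₁ = 1 / (latDistZ Z τ : ℝ) := by
        field_simp
        linarith
      have e2 : a - l (w + toR b1) = z / (latDistZ Z τ : ℝ) := by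
        field_simp
        linarith
      rw [e1]
      push_cast
      have : (z : ℝ) * (1 / (latDistZ Z τ : ℝ)) = z / (latDistZ Z τ : ℝ) := by ring
      rw [this]
      linarith
  by_cases hq : CondR Z V w a τ
  · rw [if_pos hq]
    obtain ⟨x₀, hx₀, z₀, hz₀⟩ := hiff.2 hq
    have hc := card_boxR hl hτ hu₀ w a hc1 hx₀ hz₀
    rw [sum_lstarR hτ w a ?_, hc]
    apply Set.finite_coe_iff.1
    apply Nat.finite_of_card_ne_zero
    rw [hc, volZ_eq]
    exact h n _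
  · rw [if_neg hq]
    have hempty : BoxR Z τ w a = ∅ := by
      rw [Set.eq_empty_iff_forall_notMem]
      intro b hb
      obtain ⟨c, hc, h2, z, hz⟩ := (mem_boxR_iff hl w a b b1).1 hb
      exact hq (hiff.1 ⟨b - b1, sat_of_boxR hc1 h2, z, hz⟩)
    rw [sum_lstarR hτ w a (by rw [hempty]; exact Set.finite_empty), hempty]
    simp

end Mono.Comp
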